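import Mathlib
import Pool.Agent.Helper533.Thm.Bd

/-! Thomasse's problem: an oriented graph with `n` vertices has at most
`n ^ 3 / 15 + n ^ 3 / 400000` induced directed paths with two edges. -/

set_option autoImplicit false
open Finset

namespace Pool.Agent.Results.MP_4b544d_co.NearThomasse

open Pool.Agent.Helper533.Thm

/-- indicator of an induced directed path `x → y → z` -/
def path {V : Type} (r : V → V → Bool) (x y z : V) : ℕ :=
  if r x y = true ∧ r y z = true ∧ r x z = false ∧ r z x = false then 1 else 0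

/-- code of the relation between two vertices -/
def rl {V : Type} (r : V → V → Bool) (x y : V) : ℕ :=
  if r x y = true then 1 else if r y x = true then 2 else 0

theorem pr_rl {V : Type} (r : V → V → Bool) (h : ∀ i j, ¬ (r i j = true ∧ r j i = true))
    (x y : V) : Pr (rl r x y) (rl r y x) := by
  have := h x y
  unfold rl Pr
  cases h1 : r x y <;> cases h2 : r y x <;> simp_all

theorem pc_rl {V : Type} (r : V → V → Bool) (h : ∀ i j, ¬ (r i j = true ∧ r j i = true))
    (a b c : V) : pc (cd (rl r a b) (rl r a c) (rl r b c)) =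
      path r a b c + path r a c b + path r b a c + path r b c a + path r c a b + path r c b a := by
  have h1 := h a b
  have h2 := h a c
  have h3 := h b c
  unfold rl path
  cases e1 : r a b <;> cases e2 : r b a <;> cases e3 : r a c <;> cases e4 : r c a <;>
    cases e5 : r b c <;> cases e6 : r c b <;> simp_all <;> rfl

theorem PP_eq {V : Type} [Fintype V] (r : V → V → Bool)
    (h : ∀ i j, ¬ (r i j = true ∧ r j i = true)) :
    PP (rl r) = 6 * ∑ a, ∑ b, ∑ c, path r a b c := by
  rw [PP]
  simp only [pc_rl r h, Finset.sum_add_distrib]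
  have s12 : ∀ f : V → V → V → ℕ, ∑ a, ∑ b, ∑ c, f b a c = ∑ a, ∑ b, ∑ c, f a b c :=
    fun f => sum_comm
  have s23 : ∀ f : V → V → V → ℕ, ∑ a, ∑ b, ∑ c, f a c b = ∑ a, ∑ b, ∑ c, f a b c :=
    fun f => sum_congr rfl fun a _ => sum_comm
  have e1 := s23 (path r)
  have e2 := s12 (path r)
  have e3 : ∑ a, ∑ b, ∑ c, path r b c a = ∑ a, ∑ b, ∑ c, path r a b c := by
    rw [← s12 (fun a b c => path r b c a)]; exact e1
  have e4 : ∑ a, ∑ b, ∑ c, path r c a b = ∑ a, ∑ b, ∑ c, path r a b c := by
    rw [← s23 (fun a b c => path r c a b)]; exact e2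
  have e5 : ∑ a, ∑ b, ∑ c, path r c b a = ∑ a, ∑ b, ∑ c, path r a b c := by
    rw [← s12 (fun a b c => path r c b a)]; exact e4
  rw [e1, e2, e3, e4, e5]
  ring

/-- For every `n`, every oriented graph on `n` vertices (arcs `r i j`, no loops, no digons) has at
most `(1 / 15 + 1 / 400000) n ^ 3` induced directed paths with two edges. -/
theorem result :
    ∀ (n : ℕ) (r : Fin n → Fin n → Bool),
      (∀ i, r i i = false) → (∀ i j, ¬ (r i j = true ∧ r j i = true)) →
      ((((Finset.univ : Finset (Fin n × Fin n × Fin n)).filter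
            (fun t => r t.1 t.2.1 = true ∧ r t.2.1 t.2.2 = true ∧
              r t.1 t.2.2 = false ∧ r t.2.2 t.1 = false ∧ t.1 ≠ t.2.2)).card : ℕ) : ℝ)
          ≤ (1 / 15 + 1 / 400000) * (n : ℝ) ^ 3 := by
  intro n r _ h
  have hc : ((Finset.univ : Finset (Fin n × Fin n × Fin n)).filter
            (fun t => r t.1 t.2.1 = true ∧ r t.2.1 t.2.2 = true ∧
              r t.1 t.2.2 = false ∧ r t.2.2 t.1 = false ∧ t.1 ≠ t.2.2)).card
      = ∑ a, ∑ b, ∑ c, path r a b c := by
    rw [Finset.card_filter, Fintype.sum_prod_type]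
    refine sum_congr rfl fun a _ => ?_
    rw [Fintype.sum_prod_type]
    refine sum_congr rfl fun b _ => sum_congr rfl fun c _ => ?_
    unfold path
    have hab := h a b
    by_cases hac : a = c
    · subst hac
      cases h1 : r a b <;> cases h2 : r b a <;> simp_all
    · simp [hac]
  have m := main_aux n (Fin n) (rl r) (pr_rl r h) (Fintype.card_fin n)
  rw [PP_eq r h, ← hc, Fintype.card_fin] at m
  have m' : ((1000000 * (6 * _) : ℕ) : ℝ) ≤ ((400015 * n ^ 3 : ℕ) : ℝ) := Nat.cast_le.mpr m
  push_cast at m'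
  linarith

end Pool.Agent.Results.MP_4b544d_co.NearThomasse
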